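import Mathlib
import Pool.Agent.N909.CX.Def

set_option autoImplicit false

/-! # CX/5: probabilities of paths (helper169) -/

open MeasureTheory Filter Set ProbabilityTheory
open scoped ENNReal Topology

namespace Pool.Agent.N169.CX

open Pool.Agent.N909.CM Pool.Agent.N909.CL Pool.Agent.N909.CX

section

variable {Ω : Type}

theorem rz_eq (B : ℕ → Set Ω) (w : List Bool) : ∀ (n : ℕ), (pos n w).Nodup →
    ∃ d : ℕ → Bool, Rz B n w = ⋂ p ∈ (pos n w).toFinset, {ω | ω ∈ B p ↔ d p = true} := by
  induction w with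
  | nil =>
    intro n _
    exact ⟨fun _ => true, by simp [Rz, pos]⟩
  | cons a w ih =>
    intro n hn
    have hn' : n ∉ pos (stp a n) w ∧ (pos (stp a n) w).Nodup := by
      simpa [pos] using hn
    obtain ⟨d, hd⟩ := ih _ hn'.2
    refine ⟨Function.update d n a, ?_⟩
    ext ω
    simp only [Rz, hd, mem_inter_iff, mem_iInter, List.mem_toFinset, pos, List.mem_cons,
      mem_ofPred_eq]
    constructor
    · rintro ⟨h1, h2⟩ p hp
      by_cases hpn : p = n
      · subst hpn
        simpa using h1
      · rw [Function.update_of_ne hpn]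
        exact h2 p (hp.resolve_left hpn)
    · intro h
      refine ⟨by simpa using h n (Or.inl rfl), fun p hp => ?_⟩
      have hpn : p ≠ n := by
        rintro rfl
        exact hn'.1 hp
      have := h p (Or.inr hp)
      rwa [Function.update_of_ne hpn] at this

theorem pos_length (w : List Bool) : ∀ n : ℕ, (pos n w).length = w.length := by
  induction w with
  | nil => intro n; rfl
  | cons a w ih => intro n; simp [pos, ih]

theorem pos_take (w : List Bool) : ∀ (n j : ℕ), pos n (w.take j) = (pos n w).take j := by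
  induction w with
  | nil => intro n j; simp [pos]
  | cons a w ih =>
    intro n j
    cases j with
    | zero => simp [pos]
    | succ j => simp [pos, ih]

theorem pos_getElem (w : List Bool) : ∀ (n j : ℕ) (h : j < (pos n w).length),
    (pos n w)[j] = val n (w.take j) := by
  induction w with
  | nil => intro n j h; simp [pos] at h
  | cons a w ih =>
    intro n j h
    cases j with
    | zero => simp [pos, val]
    | succ j =>
      simp only [pos, List.getElem_cons_succ, List.take_succ_cons, val]
      exact ih _ _ _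

theorem rz_take (B : ℕ → Set Ω) (w : List Bool) : ∀ (n j : ℕ), Rz B n w ⊆ Rz B n (w.take j) := by
  induction w with
  | nil => intro n j; simp
  | cons a w ih =>
    intro n j
    cases j with
    | zero => simp [Rz]
    | succ j =>
      simp only [List.take_succ_cons, Rz]
      exact inter_subset_inter_right _ (ih _ _)

theorem rz_disj (B : ℕ → Set Ω) (w : List Bool) : ∀ (n : ℕ) (w' : List Bool),
    ¬ w <+: w' → ¬ w' <+: w → Disjoint (Rz B n w) (Rz B n w') := by
  induction w with
  | nil => intro n w' h; exact absurd (List.nil_prefix) h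
  | cons a w ih =>
    intro n w' h h'
    cases w' with
    | nil => exact absurd (List.nil_prefix) h'
    | cons b w' =>
      by_cases hab : a = b
      · subst hab
        rw [List.cons_prefix_cons] at h h'
        have := ih (stp a n) w' (fun hh => h ⟨rfl, hh⟩) (fun hh => h' ⟨rfl, hh⟩)
        exact this.mono inter_subset_right inter_subset_right
      · rw [Set.disjoint_left]
        rintro ω ⟨h1, -⟩ ⟨h2, -⟩
        have h1' : ω ∈ B n ↔ a = true := h1
        have h2' : ω ∈ B n ↔ b = true := h2
        exact hab (Bool.eq_iff_iff.2 (h1'.symm.trans h2'))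

end

section

variable {Ω : Type} {m0 : MeasurableSpace Ω} (μ : Measure Ω) [IsProbabilityMeasure μ]
  (B : ℕ → Set Ω)

include m0 in
theorem meas_ev (hB : ∀ n, MeasurableSet (B n)) (p : ℕ) (a : Bool) :
    MeasurableSet {ω | ω ∈ B p ↔ a = true} := by
  cases a
  · have : {ω | ω ∈ B p ↔ false = true} = (B p)ᶜ := by ext; simp
    rw [this]; exact (hB p).compl
  · have : {ω | ω ∈ B p ↔ true = true} = B p := by ext; simp
    rw [this]; exact hB p

theorem prob_inter (hB : ∀ n, MeasurableSet (B n)) (hi : iIndepSet B μ)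
    (hh : ∀ n, μ.real (B n) = 1 / 2) (F : Finset ℕ) (d : ℕ → Bool) :
    μ.real (⋂ p ∈ F, {ω | ω ∈ B p ↔ d p = true}) = (1 / 2) ^ F.card := by
  have h1 : μ (⋂ p ∈ F, {ω | ω ∈ B p ↔ d p = true}) = ∏ p ∈ F, μ {ω | ω ∈ B p ↔ d p = true} := by
    refine iIndep.meas_biInter (m := fun i => MeasurableSpace.generateFrom {B i}) hi ?_
    intro p _
    have hb : MeasurableSet[MeasurableSpace.generateFrom {B p}] (B p) :=
      MeasurableSpace.measurableSet_generateFrom rfl
    cases hd : d p
    · have : {ω | ω ∈ B p ↔ false = true} = (B p)ᶜ := by ext; simp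
      rw [this]; exact hb.compl
    · have : {ω | ω ∈ B p ↔ true = true} = B p := by ext; simp
      rw [this]; exact hb
  have h2 : ∀ p, μ.real {ω | ω ∈ B p ↔ d p = true} = 1 / 2 := by
    intro p
    cases hd : d p
    · have : {ω | ω ∈ B p ↔ false = true} = (B p)ᶜ := by ext; simp
      rw [this, measureReal_compl (hB p), hh p]
      simp; norm_num
    · have : {ω | ω ∈ B p ↔ true = true} = B p := by ext; simp
      rw [this]; exact hh p
  rw [measureReal_def, h1, ENNReal.toReal_prod]
  have : ∀ p ∈ F, (μ {ω | ω ∈ B p ↔ d p = true}).toReal = 1 / 2 := fun p _ => h2 p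
  rw [Finset.prod_congr rfl this, Finset.prod_const]

theorem rz_meas (hB : ∀ n, MeasurableSet (B n)) (w : List Bool) : ∀ n : ℕ,
    MeasurableSet (Rz B n w) := by
  induction w with
  | nil => intro n; exact MeasurableSet.univ
  | cons a w ih => intro n; exact (meas_ev B hB n a).inter (ih _)

theorem rz_prob (hB : ∀ n, MeasurableSet (B n)) (hi : iIndepSet B μ)
    (hh : ∀ n, μ.real (B n) = 1 / 2) (n : ℕ) (w : List Bool) (hn : (pos n w).Nodup) :
    μ.real (Rz B n w) = (1 / 2) ^ w.length := by
  obtain ⟨d, hd⟩ := rz_eq B w n hn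
  rw [hd, prob_inter μ B hB hi hh, List.toFinset_card_of_nodup hn, pos_length]

theorem rz_prob2 (hB : ∀ n, MeasurableSet (B n)) (hi : iIndepSet B μ)
    (hh : ∀ n, μ.real (B n) = 1 / 2) (n n' : ℕ) (w w' : List Bool) (hn : (pos n w).Nodup)
    (hn' : (pos n' w').Nodup) (hd : ∀ p ∈ pos n' w', p ∉ pos n w) :
    μ.real (Rz B n w ∩ Rz B n' w') = (1 / 2) ^ w.length * (1 / 2) ^ w'.length := by
  obtain ⟨d, h1⟩ := rz_eq B w n hn
  obtain ⟨d', h1'⟩ := rz_eq B w' n' hn'
  have h2 : Rz B n w ∩ Rz B n' w' = ⋂ p ∈ (pos n w).toFinset ∪ (pos n' w').toFinset,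
      {ω | ω ∈ B p ↔ (if p ∈ pos n w then d p else d' p) = true} := by
    rw [h1, h1']
    ext ω
    simp only [mem_inter_iff, mem_iInter, List.mem_toFinset, mem_ofPred_eq, Finset.mem_union]
    constructor
    · rintro ⟨h2, h3⟩ p hp
      by_cases hpw : p ∈ pos n w
      · rw [if_pos hpw]; exact h2 p hpw
      · rw [if_neg hpw]; exact h3 p (hp.resolve_left hpw)
    · intro h
      refine ⟨fun p hp => ?_, fun p hp => ?_⟩
      · have := h p (Or.inl hp)
        rwa [if_pos hp] at this
      · have := h p (Or.inr hp)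
        rwa [if_neg (hd p hp)] at this
  rw [h2, prob_inter μ B hB hi hh, Finset.card_union_of_disjoint, List.toFinset_card_of_nodup hn,
    List.toFinset_card_of_nodup hn', pos_length, pos_length, pow_add]
  rw [Finset.disjoint_left]
  intro p hp hp'
  exact hd p (List.mem_toFinset.1 hp') (List.mem_toFinset.1 hp)

end

theorem t : Pool.Agent.N909.CX.Stm5 := by
  intro Ω m0 μ _ B hB hi hh
  refine ⟨fun n w => rz_meas B hB w n, fun n w hn => rz_prob μ B hB hi hh n w hn, ?_, ?_⟩
  · intro n A hA hpre
    rw [measureReal_biUnion_finset]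
    · exact Finset.sum_congr rfl fun w hw => rz_prob μ B hB hi hh n w (hA w hw)
    · intro w hw w' hw' hne
      refine rz_disj B w n w' (fun h => hne (hpre w hw w' hw' h)) (fun h => hne ?_)
      exact (hpre w' hw' w hw h).symm
    · intro w _
      exact rz_meas B hB w n
  · intro n n' A A' V hA hA' hV
    classical
    have key : ∀ w ∈ A, μ.real (Rz B n w ∩ (⋃ w' ∈ A', Rz B n' w')) ≤
        (1 / 2 : ℝ) ^ w.length * (∑ w' ∈ A', (1 / 2 : ℝ) ^ w'.length) +
        (1 / 2 : ℝ) ^ w.length * ∑ v ∈ V.filter (fun v => val n' v ∈ pos n w), (1 / 2 : ℝ) ^ v.length := by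
      intro w hw
      let A1 := A'.filter (fun w' => ∀ p ∈ pos n' w', p ∉ pos n w)
      let V1 := (V.filter (fun v => val n' v ∈ pos n w)).filter
        (fun v => (pos n' v).Nodup ∧ ∀ p ∈ pos n' v, p ∉ pos n w)
      have hsub : Rz B n w ∩ (⋃ w' ∈ A', Rz B n' w') ⊆
          (⋃ w' ∈ A1, (Rz B n w ∩ Rz B n' w')) ∪ (⋃ v ∈ V1, (Rz B n w ∩ Rz B n' v)) := by
        rintro ω ⟨h1, h2⟩
        rw [mem_iUnion₂] at h2
        obtain ⟨w', hw', h3⟩ := h2
        by_cases hdis : ∀ p ∈ pos n' w', p ∉ pos n w
        · left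
          exact mem_iUnion₂.2 ⟨w', Finset.mem_filter.2 ⟨hw', hdis⟩, h1, h3⟩
        · right
          push Not at hdis
          obtain ⟨p, hp, hp'⟩ := hdis
          have hex : ∃ j, j < w'.length ∧ val n' (w'.take j) ∈ pos n w := by
            obtain ⟨j, hj, hjp⟩ := List.getElem_of_mem hp
            refine ⟨j, by rwa [pos_length] at hj, ?_⟩
            rw [← pos_getElem w' n' j hj, hjp]
            exact hp'
          let j := Nat.find hex
          have hj := Nat.find_spec hex
          have hjmin : ∀ i < j, ¬ (i < w'.length ∧ val n' (w'.take i) ∈ pos n w) :=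
            fun i hi => Nat.find_min hex hi
          refine mem_iUnion₂.2 ⟨w'.take j, ?_, h1, rz_take B w' n' j h3⟩
          rw [Finset.mem_filter, Finset.mem_filter]
          refine ⟨⟨hV w' hw' j hj.1, hj.2⟩, ?_, ?_⟩
          · rw [pos_take]
            exact (hA' w' hw').sublist (List.take_sublist _ _)
          · intro q hq
            rw [pos_take] at hq
            obtain ⟨i, hi, hiq⟩ := List.getElem_of_mem hq
            rw [List.length_take] at hi
            have hi1 : i < j := lt_of_lt_of_le hi (min_le_left _ _)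
            have hi2 : i < (pos n' w').length := lt_of_lt_of_le hi (min_le_right _ _)
            rw [List.getElem_take, pos_getElem w' n' i hi2] at hiq
            intro hqn
            refine hjmin i hi1 ⟨by rwa [pos_length] at hi2, ?_⟩
            rw [hiq]; exact hqn
      have e1 : μ.real (⋃ w' ∈ A1, (Rz B n w ∩ Rz B n' w')) ≤
          (1 / 2 : ℝ) ^ w.length * (∑ w' ∈ A', (1 / 2 : ℝ) ^ w'.length) := by
        refine (measureReal_biUnion_finset_le _ _).trans ?_
        rw [Finset.mul_sum]
        have : ∑ w' ∈ A1, μ.real (Rz B n w ∩ Rz B n' w') =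
            ∑ w' ∈ A1, (1 / 2 : ℝ) ^ w.length * (1 / 2 : ℝ) ^ w'.length := by
          refine Finset.sum_congr rfl fun w' hw' => ?_
          have := Finset.mem_filter.1 hw'
          exact rz_prob2 μ B hB hi hh n n' w w' (hA w hw) (hA' w' this.1) this.2
        rw [this]
        refine Finset.sum_le_sum_of_subset_of_nonneg (Finset.filter_subset _ _) ?_
        intro i _ _
        positivity
      have e2 : μ.real (⋃ v ∈ V1, (Rz B n w ∩ Rz B n' v)) ≤
          (1 / 2 : ℝ) ^ w.length * ∑ v ∈ V.filter (fun v => val n' v ∈ pos n w), (1 / 2 : ℝ) ^ v.length := by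
        refine (measureReal_biUnion_finset_le _ _).trans ?_
        rw [Finset.mul_sum]
        have : ∑ v ∈ V1, μ.real (Rz B n w ∩ Rz B n' v) =
            ∑ v ∈ V1, (1 / 2 : ℝ) ^ w.length * (1 / 2 : ℝ) ^ v.length := by
          refine Finset.sum_congr rfl fun v hv => ?_
          have := Finset.mem_filter.1 hv
          exact rz_prob2 μ B hB hi hh n n' w v (hA w hw) this.2.1 this.2.2
        rw [this]
        refine Finset.sum_le_sum_of_subset_of_nonneg (Finset.filter_subset _ _) ?_
        intro i _ _
        positivity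
      calc μ.real (Rz B n w ∩ (⋃ w' ∈ A', Rz B n' w'))
          ≤ μ.real ((⋃ w' ∈ A1, (Rz B n w ∩ Rz B n' w')) ∪ (⋃ v ∈ V1, (Rz B n w ∩ Rz B n' v))) :=
            measureReal_mono hsub
        _ ≤ _ := (measureReal_union_le _ _).trans (add_le_add e1 e2)
    have h0 : (⋃ w ∈ A, Rz B n w) ∩ (⋃ w ∈ A', Rz B n' w) =
        ⋃ w ∈ A, (Rz B n w ∩ (⋃ w' ∈ A', Rz B n' w')) := by
      rw [iUnion₂_inter]
    rw [h0]
    refine (measureReal_biUnion_finset_le _ _).trans ((Finset.sum_le_sum key).trans ?_)
    rw [Finset.sum_add_distrib, Finset.sum_mul]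

end Pool.Agent.N169.CX
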